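import Pool.Agent.helper613_wm.W8

/-!
The weak form of the conjecture of Manin over the rational numbers, with the exact order of growth,
for smooth hypersurfaces `X : ∑ A_ij y_i^k y_j^k = 0` of degree `2 k` in projective spaces of
dimension `s - 1`, where `s` is only polynomially large in `k` (the theorem of Birch needs
exponentially many variables).

* `form A k`: the form `∑ A_ij y_i^k y_j^k`.
* `Smooth A k`: no complex vector `y ≠ 0` is a zero of all partial derivatives of the form.
* `Pts A k B`: the rational points of `X` of height at most `B`, where the height is the height of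
  Mathlib for points of projective space over the rational numbers (the maximum of the absolute
  values of the coordinates of a primitive integer representative).
* `I`, `J`: the rows and columns of a nonzero minor of `A` of order `3000 k^5`, with no index in
  common.

The Fujita invariant of `X` and the hyperplane class is `s - 2 k`.
-/

set_option autoImplicit false

namespace Pool.Agent.Results.MP_18ea5f_nt.QuadraticFormsInPowers

open MvPolynomial

/-- the form `∑ A_ij y_i^k y_j^k` -/
noncomputable def form {s : ℕ} (A : Matrix (Fin s) (Fin s) ℤ) (k : ℕ) : MvPolynomial (Fin s) ℤ :=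
  ∑ i, ∑ j, C (A i j) * X i ^ k * X j ^ k

/-- the hypersurface is smooth: the partial derivatives have no common complex zero but `0` -/
def Smooth {s : ℕ} (A : Matrix (Fin s) (Fin s) ℤ) (k : ℕ) : Prop :=
  ∀ y : Fin s → ℂ, (∀ l, aeval y (pderiv l (form A k)) = 0) → y = 0

/-- the rational points of the hypersurface of height at most `B` -/
def Pts {s : ℕ} (A : Matrix (Fin s) (Fin s) ℤ) (k : ℕ) (B : ℝ) :
    Set (Projectivization ℚ (Fin s → ℚ)) :=
  {P | aeval P.rep (form A k) = 0 ∧ P.mulHeight ≤ B}

/-- Let `A` be a symmetric integer matrix with nonzero principal minors and a nonzero minor of order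
`3000 k^5` whose rows and columns are disjoint. Then the hypersurface `∑ A_ij y_i^k y_j^k = 0` is
smooth and has `O(B^(s - 2k))` rational points of height at most `B`; if it has a real point and
`s ≥ 10^35 k^65`, then it has at least `c B^(s - 2k)` such points for large `B`, with `c > 0`. -/
theorem result (k : ℕ) (hk : 1 ≤ k) (s : ℕ) (A : Matrix (Fin s) (Fin s) ℤ) (hA : A.IsSymm)
    (hprin : ∀ T : Finset (Fin s), T.Nonempty →
      (A.submatrix (fun i : T => (i : Fin s)) (fun i : T => (i : Fin s))).det ≠ 0)
    (I J : Fin (3000 * k ^ 5) → Fin s) (hI : Function.Injective I) (hJ : Function.Injective J)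
    (hIJ : ∀ i j, I i ≠ J j) (hdet : (A.submatrix I J).det ≠ 0) :
    Smooth A k ∧
    (∃ C : ℝ, ∀ B : ℝ, 1 ≤ B →
      (Pts A k B).Finite ∧ ((Pts A k B).ncard : ℝ) ≤ C * B ^ (s - 2 * k)) ∧
    (10 ^ 35 * k ^ 65 ≤ s → (∃ y : Fin s → ℝ, y ≠ 0 ∧ aeval y (form A k) = 0) →
      ∃ c : ℝ, 0 < c ∧ ∃ B0 : ℝ, ∀ B ≥ B0, c * B ^ (s - 2 * k) ≤ ((Pts A k B).ncard : ℝ)) := by
  obtain ⟨h1, h2⟩ := Pool.Agent.helper613_wm.main k hk s A hA I J hI hJ hIJ hdet
  obtain ⟨h3, h4⟩ := h2 hprin
  exact ⟨h3, h1, h4⟩

end Pool.Agent.Results.MP_18ea5f_nt.QuadraticFormsInPowers
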